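import Pool.Agent.N760.MC.Gen
import Pool.Agent.Y626.WC.Fin
import Pool.Agent.Y626.WX.Defs

/-! # `M[1]` and `W[1]`: random oracles against generic oracles -/

set_option autoImplicit false

namespace Pool.Agent.N760.MC

open MeasureTheory
open Pool.Agent.NPC Pool.Agent.H620R2.Gauge Pool.Agent.TH678.GC Pool.Agent.Y626.WG
open Pool.Agent.Y626.WC (InFPT)
open Pool.Agent.Y626.WX (InM1)
open Pool.Agent.Y581.WN (InM1n)
open Pool.Agent.H628R3.RO (randomOracle prob)

/-- a copy of `Pool.Agent.Y626.WX.inM1_of_inFPT` -/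
theorem inM1_of_inFPT {O : Oracle} {β : Type} [TEnc β] {κ : β → ℕ} {P : β → Prop}
    (h : InFPT O κ P) : InM1 O κ P := by
  classical
  obtain ⟨π, M, hπ, h⟩ := h
  choose b h1 h2 using h
  refine ⟨π, fun _ => 1, 1, M, fun a => [b a], {x | x = [true]}, hπ, Computable.const 1, ?_,
    fun a => ⟨h1 a, ?_, ?_⟩⟩
  · have h0 : NPC.Poly (fun y : List Bool => y) := NPC.Poly.id
    exact IsP.isNP ⟨fun y => y, IsFP.of_poly h0, fun x => Iff.rfl⟩
  · rw [pow_one, one_mul]
    simp
  · rw [h2 a]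
    show _ ↔ [b a] = [true]
    rw [List.cons.injEq, and_iff_left rfl]

theorem final :
    (∃ E : Oracle, ∀ᵐ A ∂randomOracle,
      (∀ (α : Type) [TEnc α] (κ : α → ℕ) (P : α → Prop),
        (InW 1 (join A E) κ P ↔ InFPT (join A E) κ P) ∧
        (InW 1 (join A E) κ P → InM1 (join A E) κ P)) ∧
      ∀ t : ℕ, 1 ≤ t →
        (∀ (α : Type) [TEnc α] (κ : α → ℕ) (P : α → Prop), InW t (join A E) κ P →
          InW (t + 1) (join A E) κ P ∧ InA t (join A E) κ P) ∧
        InW (t + 1) (join A E) (fun I : WInst (t + 1) => I.1.param)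
          (fun I => I.1.Sat (join A E)) ∧
        ¬ InA t (join A E) (fun I : WInst (t + 1) => I.1.param)
          (fun I => I.1.Sat (join A E))) ∧
    ∀ E : Oracle, ∀ᶠ A in residual Oracle,
      (InW 1 (join A E) (fun I : WInst 1 => I.1.param) (fun I => I.1.Sat (join A E)) ∧
        ¬ InM1n (join A E) (fun I : WInst 1 => I.1.param) (fun I => I.1.Sat (join A E))) ∧
      ∀ t : ℕ,
        (∀ (α : Type) [TEnc α] (κ : α → ℕ) (P : α → Prop), InW t (join A E) κ P →
          InW (t + 1) (join A E) κ P ∧ InA t (join A E) κ P) ∧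
        InW (t + 1) (join A E) (fun I : WInst (t + 1) => I.1.param)
          (fun I => I.1.Sat (join A E)) ∧
        ¬ InA t (join A E) (fun I : WInst (t + 1) => I.1.param)
          (fun I => I.1.Sat (join A E)) := by
  refine ⟨?_, fun E => ?_⟩
  · obtain ⟨E, hE⟩ := Pool.Agent.Y626.WC.final
    refine ⟨E, ?_⟩
    filter_upwards [hE] with A hA
    exact ⟨fun α _ κ P => ⟨hA.1 α κ P, fun h => inM1_of_inFPT ((hA.1 α κ P).1 h)⟩, hA.2⟩
  · filter_upwards [main_m E, Pool.Agent.Y626.WG.main E] with A h1 h2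
    exact ⟨⟨mc_inW 1 (join A E), h1⟩, h2⟩

end Pool.Agent.N760.MC
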