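import Pool.Agent.Y581.WN.Mini
import Pool.Agent.Y626.WG.Final

/-! # `W[1]` is not contained in `M[1]` relative to generic oracles: the model-checking problem -/

set_option autoImplicit false

namespace Pool.Agent.N760.MC

open Filter hiding join
open Pool.Agent.NPC Pool.Agent.H620R2.Gauge Pool.Agent.TH678.GC Pool.Agent.Y626.WG
open Pool.Agent.Y626.WC (sat_one)
open Pool.Agent.TH678.RS (ev_poly)
open Pool.Agent.Y581.WN (Badm InM1n eval_mono')

/-- the truth of the instances without universal quantifiers -/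
theorem sat0 (A : Oracle) (k m ν j : ℕ) : (hard k 0 m ν j).Sat A ↔
    ∃ v, Tup (2 ^ ν) (k + 0) v ∧ A (v.flatMap (lab m ν j)) = true := by
  have e1 : (hard k 0 m ν j).blocks.sum = k + 0 := by
    show (k :: List.replicate 0 1).sum = k + 0
    simp
  have e2 : (hard k 0 m ν j).labels.length = 2 ^ ν := by
    show ((List.range (2 ^ ν)).map (lab m ν j)).length = _
    rw [List.length_map, List.length_range]
  rw [sat_one (hard_isW k 0 m ν j), e1, e2]
  refine exists_congr fun v => and_congr_right fun hv => ?_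
  have e3 : (hard k 0 m ν j).atom A v (0, List.range (k + 0)) =
      A (v.flatMap (lab m ν j)) := by
    show A ((List.range (k + 0)).flatMap
      (fun i => (hard k 0 m ν j).labels.getD (v.getD i 0) [])) = _
    rw [query hv]
  show [(hard k 0 m ν j).atom A v (0, List.range (k + 0))] ∈ [[true]] ↔ _
  rw [e3]
  simp

/-- the questions of the instances -/
theorem quest {k m ν : ℕ} (hk : 1 ≤ k) {v : List ℕ} (hv : Tup (2 ^ ν) (k + 0) v) :
    ∃ u : List Bool, v.flatMap (lab m ν 0) = false :: u ∧ m + ν ≤ u.length := by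
  have hlen := length_flat m ν 0 v
  rw [hv.1] at hlen
  have h6 : 1 + m + ν ≤ (k + 0) * (1 + m + ν) := Nat.le_mul_of_pos_left _ (by omega)
  rcases v with _ | ⟨a, v⟩
  · exfalso
    have := hv.1
    rw [List.length_nil] at this
    omega
  have e : (a :: v).flatMap (lab m ν 0) =
      false :: ((bitsOf m 0 ++ bitsOf ν a) ++ v.flatMap (lab m ν 0)) := by
    rw [List.flatMap_cons]
    rfl
  refine ⟨_, e, ?_⟩
  rw [e, List.length_cons] at hlen
  omega

/-- one error, by changes of long strings -/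
theorem core_g (E : Oracle) (M N : Alg) (p : Polynomial ℕ) (σ : List Bool) (H c : ℕ)
    {m ν L : ℕ} (hν : 1 ≤ ν) (hL : L < m + ν)
    (hin : (pairBits σ (bits (hard (kk M) 0 m ν 0))).length + 2 ≤ 2 ^ (2 * ν))
    (hshort : ∀ r w : List Bool,
      r.length ≤ (H * (Nat.log 2 (bits (hard (kk M) 0 m ν 0)).length + 1)) ^ c →
      w.length ≤ p.eval r.length → ∀ A : Oracle, ∃ Q : Finset (List Bool),
        (∀ q ∈ Q, q.length ≤ m) ∧ ∀ A' : Oracle, (∀ q ∈ Q, A' q = A q) →
          N.out A' (pairBits w r) = N.out A (pairBits w r)) (B : Oracle) :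
    ∃ B' : Oracle, (∀ u : List Bool, u.length ≤ L → B' u = B u) ∧
      Badm M N p σ H c (hard (kk M) 0 m ν 0) (join B' E) := by
  classical
  obtain ⟨qM, hqM⟩ := M.out_local
  set k := kk M with hk
  have hk1 : 1 ≤ k := by rw [hk]; unfold Pool.Agent.Y626.WG.kk; omega
  set x := hard k 0 m ν 0 with hx
  set B0 : Oracle := base B L with hB0
  have hB0' : ∀ u : List Bool, u.length ≤ L → B0 u = B u := fun u hu => if_pos hu
  have hsat0 : ¬ x.Sat (join B0 E) := by
    rw [hx, sat0]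
    rintro ⟨v, hv, h8⟩
    obtain ⟨u, h1, h2⟩ := quest (m := m) hk1 hv
    rw [h1] at h8
    have h10 : join B0 E (false :: u) = false := by
      show base B L u = false
      unfold base
      rw [if_neg (by omega)]
    rw [h10] at h8
    exact Bool.false_ne_true h8
  by_cases hbad : Badm M N p σ H c x (join B0 E)
  · exact ⟨B0, hB0', hbad⟩
  unfold Badm at hbad
  rw [not_not] at hbad
  obtain ⟨r, hr1, hr2, hr3⟩ := hbad
  have hr4 : ¬ ∃ w : List Bool, w.length ≤ p.eval r.length ∧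
      N.out (join B0 E) (pairBits w r) = some [true] := fun h => hsat0 (hr3.2 h)
  obtain ⟨Q, hQ1, _, hQ3⟩ := hqM (join B0 E) (pairBits σ (bits x))
  have hQc : Q.card + 2 ^ 0 ≤ 2 ^ (ν * k) := by
    have h8 : Q.card ≤ 2 ^ (2 * ν * pe M) := by
      refine hQ1.trans ((pe_spec M _).trans ?_)
      rw [pow_mul]
      exact Nat.pow_le_pow_left hin _
    have h9 : (2 : ℕ) ^ (ν * k) = 2 ^ (2 * ν * pe M) * 2 ^ (3 * ν) := by
      rw [← pow_add, hk]
      unfold Pool.Agent.Y626.WG.kk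
      congr 1
      ring
    have h10 : 2 ≤ (2 : ℕ) ^ (3 * ν) := by
      calc 2 = 2 ^ 1 := by norm_num
        _ ≤ _ := Nat.pow_le_pow_right (by norm_num) (by omega)
    have h11 : 1 ≤ (2 : ℕ) ^ (2 * ν * pe M) := Nat.one_le_two_pow
    rw [h9]
    nlinarith
  obtain ⟨S, hS1, hS2⟩ := exists_sel (t := 0) (c := m) hk1 Q hQc
  set v := S 0 with hv
  have hvt : Tup (2 ^ ν) (k + 0) v := hS1.tup 0 (by norm_num)
  obtain ⟨u, hu1, hu2⟩ := quest (m := m) hk1 hvt
  have hqvQ : false :: u ∉ Q := by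
    intro h
    refine hS2 _ h ⟨(0, 0, []), by positivity, by norm_num, ⟨rfl, by simp⟩, ?_⟩
    rw [← hu1]
    simp [hv]
  set B' : Oracle := Function.update B0 u true with hB'
  have hB'q : ∀ y, y ≠ false :: u → join B' E y = join B0 E y := by
    intro y hy
    rcases y with _ | ⟨b, y⟩
    · rfl
    cases b with
    | true => rfl
    | false =>
      show B' y = B0 y
      exact Function.update_of_ne (fun h => hy (by rw [h])) _ _
  refine ⟨B', fun y hy => ?_, ?_⟩
  · have hne : y ≠ u := by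
      rintro rfl
      omega
    rw [hB', Function.update_of_ne hne, hB0' y hy]
  · rintro ⟨r', h9, h10, h11⟩
    have h12 : M.out (join B' E) (pairBits σ (bits x)) = M.out (join B0 E) (pairBits σ (bits x)) :=
      hQ3 (join B' E) fun q hq => hB'q q fun h => hqvQ (h ▸ hq)
    rw [h12, hr1, Option.some.injEq] at h9
    subst h9
    have h13 : x.Sat (join B' E) := by
      rw [hx, sat0]
      refine ⟨v, hvt, ?_⟩
      rw [hu1]
      show B' u = true
      rw [hB']
      simp
    obtain ⟨w, h14, h15⟩ := h11.1 h13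
    refine hr4 ⟨w, h14, ?_⟩
    obtain ⟨Q', h16, h17⟩ := hshort r w hr2 h14 (join B' E)
    rw [← h15]
    refine h17 (join B0 E) fun q hq => (hB'q q ?_).symm
    rintro rfl
    have h18 := h16 _ hq
    rw [List.length_cons] at h18
    omega

/-- the numbers -/
theorem num_g (s C L : ℕ) (F : Polynomial ℕ) : ∃ ν : ℕ, 1 ≤ ν ∧ L < ν ∧
    2 * s + 1 + (2 ^ ν * (4 * (1 + F.eval ν + ν) + 2) + C) + 2 ≤ 2 ^ (2 * ν) := by
  obtain ⟨d, _, hd⟩ := Pool.Agent.H622R2.Exp.YAux.poly_bound F
  obtain ⟨ν, h1, h2⟩ := ((ev_poly (2 * s + 3 + C + 4 * 2 ^ d + 10) (d + 1)).and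
    (Filter.eventually_ge_atTop (L + 1))).exists
  refine ⟨ν, by omega, by omega, ?_⟩
  have h3 : F.eval ν ≤ 2 ^ d * (ν + 1) ^ (d + 1) := by
    calc F.eval ν ≤ (ν + 2) ^ d := hd ν
      _ ≤ (2 * (ν + 1)) ^ d := Nat.pow_le_pow_left (by omega) _
      _ = 2 ^ d * (ν + 1) ^ d := mul_pow _ _ _
      _ ≤ 2 ^ d * (ν + 1) ^ (d + 1) :=
        Nat.mul_le_mul_left _ (Nat.pow_le_pow_right (by omega) (by omega))
  have h4 : ν + 1 ≤ (ν + 1) ^ (d + 1) := by
    calc ν + 1 = (ν + 1) ^ 1 := (pow_one _).symm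
      _ ≤ _ := Nat.pow_le_pow_right (by omega) (by omega)
  have e : 2 ^ (2 * ν) = 2 ^ ν * 2 ^ ν := by
    rw [← pow_add]
    congr 1
    ring
  have h5 : 1 ≤ 2 ^ ν := Nat.one_le_two_pow
  generalize (ν + 1) ^ (d + 1) = Z at h1 h3 h4
  have h6 : 2 * s + 3 + C + (4 * (1 + F.eval ν + ν) + 2) ≤ 2 ^ ν := by
    have h7 : 2 * s + 3 + C ≤ (2 * s + 3 + C) * Z := Nat.le_mul_of_pos_right _ (by omega)
    have h8 : (2 * s + 3 + C + 4 * 2 ^ d + 10) * Z =
        (2 * s + 3 + C) * Z + 4 * (2 ^ d * Z) + 10 * Z := by ring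
    rw [h8] at h1
    omega
  rw [e]
  calc 2 * s + 1 + (2 ^ ν * (4 * (1 + F.eval ν + ν) + 2) + C) + 2
      ≤ 2 ^ ν * (2 * s + 3 + C + (4 * (1 + F.eval ν + ν) + 2)) := by
        have h7 : 2 * s + 3 + C ≤ 2 ^ ν * (2 * s + 3 + C) := Nat.le_mul_of_pos_left _ (by omega)
        have h8 : 2 ^ ν * (2 * s + 3 + C + (4 * (1 + F.eval ν + ν) + 2)) =
          2 ^ ν * (2 * s + 3 + C) + 2 ^ ν * (4 * (1 + F.eval ν + ν) + 2) := by ring
        omega
    _ ≤ _ := Nat.mul_le_mul_left _ h6

theorem one_m (E : Oracle) (M N : Alg) (p : Polynomial ℕ) (σ : List Bool) (H c : ℕ)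
    (B₀ : Oracle) (L : ℕ) :
    ∃ A : Oracle, (∀ u : List Bool, u.length ≤ L → A u = B₀ u) ∧
      ∃ m ν, Badm M N p σ H c (hard (kk M) 0 m ν 0) (join A E) := by
  classical
  obtain ⟨qN, hqN⟩ := N.out_local
  set k := kk M with hk
  set ρ' : Polynomial ℕ := (Polynomial.C H * (Polynomial.C 2 * Polynomial.X + 1)) ^ c with hρ'
  set F : Polynomial ℕ := qN.comp (2 * p.comp ρ' + 1 + ρ') with hF
  obtain ⟨ν, h1, h2, h3⟩ := num_g σ.length (cst k 0) L F
  set m := F.eval ν with hm
  have hsz : (bits (hard k 0 m ν 0)).length ≤ 2 ^ ν * (4 * (1 + m + ν) + 2) + cst k 0 := by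
    rw [bits_length]
    exact sz_hard k 0 m ν 0
  have hin : (pairBits σ (bits (hard k 0 m ν 0))).length + 2 ≤ 2 ^ (2 * ν) := by
    rw [length_pairBits]
    omega
  have hlog : Nat.log 2 (bits (hard k 0 m ν 0)).length ≤ 2 * ν := by
    have h8 : (bits (hard k 0 m ν 0)).length ≤ 2 ^ (2 * ν) := by
      rw [length_pairBits] at hin
      omega
    have h9 := Nat.log_mono_right (b := 2) h8
    rw [Nat.log_pow (by norm_num)] at h9
    exact h9
  obtain ⟨A, h4, h5⟩ := core_g E M N p σ H c (m := m) (ν := ν) (L := L) h1 (by omega) hin (by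
    intro r w hr hw A
    obtain ⟨Q, _, h10, h11⟩ := hqN A (pairBits w r)
    refine ⟨Q, fun q hq => (h10 q hq).trans ?_, h11⟩
    have h20 : r.length ≤ ρ'.eval ν := by
      refine hr.trans ?_
      rw [hρ', Polynomial.eval_pow, Polynomial.eval_mul, Polynomial.eval_C, Polynomial.eval_add,
        Polynomial.eval_one, Polynomial.eval_mul, Polynomial.eval_C, Polynomial.eval_X]
      exact Nat.pow_le_pow_left (Nat.mul_le_mul_left _ (Nat.add_le_add_right hlog _)) _
    rw [hm, hF, Polynomial.eval_comp]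
    refine eval_mono' _ ?_
    have h22 := hw.trans (eval_mono' p h20)
    rw [length_pairBits]
    simp only [Polynomial.eval_add, Polynomial.eval_mul, Polynomial.eval_ofNat,
      Polynomial.eval_comp, Polynomial.eval_one]
    omega) B₀
  exact ⟨A, h4, m, ν, h5⟩

/-- the errors are open conditions -/
theorem open_Badm (E : Oracle) (M N : Alg) (p : Polynomial ℕ) (σ : List Bool) (H c : ℕ)
    (x : Inst) : IsOpen {A | Badm M N p σ H c x (join A E)} := by
  obtain ⟨qM, hqM⟩ := M.out_local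
  obtain ⟨qN, hqN⟩ := N.out_local
  obtain ⟨ℓx, hℓx⟩ := sat_loc x
  refine isOpen_of_loc' fun B hB => ?_
  have hout : ∀ B' : Oracle, (∀ u : List Bool,
      u.length ≤ qM.eval (pairBits σ (bits x)).length → B u = B' u) →
      M.out (join B' E) (pairBits σ (bits x)) = M.out (join B E) (pairBits σ (bits x)) := by
    intro B' hB'
    obtain ⟨Q, _, hQ2, hQ3⟩ := hqM (join B E) (pairBits σ (bits x))
    exact hQ3 (join B' E) fun q hq => (join_loc hB' q (hQ2 q hq)).symm
  by_cases hI : ∃ r : List Bool, M.out (join B E) (pairBits σ (bits x)) = some r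
  · obtain ⟨r, hI⟩ := hI
    refine ⟨max (qM.eval (pairBits σ (bits x)).length)
      (max ℓx (qN.eval (2 * p.eval r.length + 1 + r.length))), fun B' hB' => ?_⟩
    rintro ⟨r', h1, h2, h3⟩
    rw [hout B' fun u hu => hB' u (hu.trans (le_max_left _ _)), hI] at h1
    have h5 : r = r' := Option.some.inj h1
    subst h5
    refine hB ⟨r, hI, h2, ?_⟩
    have h6 := hℓx (join B E) (join B' E) fun q hq => join_loc hB' q
      (hq.trans ((le_max_left _ _).trans (le_max_right _ _)))
    have h7 : ∀ w : List Bool, w.length ≤ p.eval r.length →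
        N.out (join B' E) (pairBits w r) = N.out (join B E) (pairBits w r) := by
      intro w hw
      obtain ⟨Q, _, hQ2, hQ3⟩ := hqN (join B E) (pairBits w r)
      refine hQ3 (join B' E) fun q hq => (join_loc hB' q ?_).symm
      refine (hQ2 q hq).trans (le_trans ?_ ((le_max_right _ _).trans (le_max_right _ _)))
      refine eval_mono' _ ?_
      rw [length_pairBits]
      omega
    rw [h6, h3]
    constructor
    · rintro ⟨w, h8, h9⟩
      exact ⟨w, h8, by rw [← h7 w h8]; exact h9⟩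
    · rintro ⟨w, h8, h9⟩
      exact ⟨w, h8, by rw [h7 w h8]; exact h9⟩
  · refine ⟨qM.eval (pairBits σ (bits x)).length, fun B' hB' => ?_⟩
    rintro ⟨r, h1, _⟩
    rw [hout B' hB'] at h1
    exact hI ⟨r, h1⟩

/-- the set of the oracles for which the requirement is satisfied -/
def Gm (E : Oracle) (j : Alg × Alg × Polynomial ℕ × List Bool × ℕ × ℕ) : Set Oracle :=
  {A | ∃ m ν, Badm j.1 j.2.1 j.2.2.1 j.2.2.2.1 j.2.2.2.2.1 j.2.2.2.2.2
    (hard (kk j.1) 0 m ν 0) (join A E)}

theorem open_Gm (E : Oracle) (j : Alg × Alg × Polynomial ℕ × List Bool × ℕ × ℕ) :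
    IsOpen (Gm E j) := by
  have h1 : Gm E j = ⋃ m, ⋃ ν, {A | Badm j.1 j.2.1 j.2.2.1 j.2.2.2.1 j.2.2.2.2.1 j.2.2.2.2.2
      (hard (kk j.1) 0 m ν 0) (join A E)} := by
    ext A
    simp [Gm]
  rw [h1]
  exact isOpen_iUnion fun m => isOpen_iUnion fun ν => open_Badm E _ _ _ _ _ _ _

theorem dense_Gm (E : Oracle) (j : Alg × Alg × Polynomial ℕ × List Bool × ℕ × ℕ) :
    Dense (Gm E j) := by
  rw [dense_iff_inter_open]
  rintro U hU ⟨B₀, hB₀⟩
  obtain ⟨I, u, hu1, hu2⟩ := isOpen_pi_iff.1 hU B₀ hB₀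
  obtain ⟨A, hA1, hA2⟩ := one_m E j.1 j.2.1 j.2.2.1 j.2.2.2.1 j.2.2.2.2.1 j.2.2.2.2.2 B₀
    (I.sup List.length)
  refine ⟨A, hu2 fun z hz => ?_, hA2⟩
  rw [hA1 z (Finset.le_sup (f := List.length) hz)]
  exact (hu1 z hz).2

theorem generic_m (E : Oracle) : ∀ᶠ A in residual Oracle,
    ∀ j : Alg × Alg × Polynomial ℕ × List Bool × ℕ × ℕ, A ∈ Gm E j := by
  have hcn := CC.poly_countable
  have hc2 : Countable Alg := Alg.countable
  exact eventually_countable_forall.2 fun j => residual_of_dense_open (open_Gm E j) (dense_Gm E j)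

/-- Relative to generic oracles, the model-checking problem for existential sentences is not in the
wide nonuniform form of `M[1]`. -/
theorem main_m (E : Oracle) : ∀ᶠ A in residual Oracle,
    ¬ InM1n (join A E) (fun I : WInst 1 => I.1.param) (fun I => I.1.Sat (join A E)) := by
  filter_upwards [generic_m E] with A hA
  rintro ⟨π, h, c, M, r, L, ⟨V, p, ⟨N, hN⟩, hL⟩, hr⟩
  obtain ⟨m, ν, hbad⟩ := hA (M, N, p, π (2 * (kk M + 0) + 1), h (2 * (kk M + 0) + 1), c)
  dsimp only at hbad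
  have h1 := hr ⟨hard (kk M) 0 m ν 0, hard_isW _ _ _ _ _⟩
  dsimp only at h1
  rw [hard_param] at h1
  refine hbad ⟨_, h1.1, h1.2.1, ?_⟩
  rw [h1.2.2, hL]
  refine exists_congr fun w => and_congr_right fun _ => ?_
  rw [hN, Option.some.injEq]

end Pool.Agent.N760.MC
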